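import Pool.Agent.T9h36.N1.Spec
import Pool.Agent.T9h48.NK.TrCore

/-!
# Project NK, slope 1, piece N5 (helper31)
-/

set_option autoImplicit false

open Set
open scoped RealInnerProductSpace

namespace Pool.Agent.T9h31.N1

open Pool.Agent.T9h98.DC Pool.Agent.T9h44.NK Pool.Agent.T9h36.N1 Pool.Agent.T9h48.NK

/-- the second face of a chain through `w` is an edge at `w` -/
theorem edge_of (hF : S_FACES) {d : ℕ} {P : Set (E (d + 1))} (hP : IsPolytope P) {w : E (d + 1)}
    (hw : Vx P w) {F : Set (E (d + 1))} (hFF : IsFace P F) (h1 : dm F = 1) (hwF : w ∈ F) :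
    ∃ y, Adj P w y ∧ F = segment ℝ w y := by
  obtain ⟨-, -, -, -, -, -, -, f8, f9, f10⟩ := hF (d + 1) P hP.1
  obtain ⟨a, b, hab, hFab⟩ := f8 F hFF h1
  rcases f10 a b hab w hw (by rw [← hFab]; exact hwF) with h | h
  · subst h
    exact ⟨b, hab, hFab⟩
  · subst h
    exact ⟨a, (f9 a w hab).2.2.1, by rw [hFab, segment_symm]⟩

theorem seg_img {d : ℕ} (h : E d ≃ₗᵢ[ℝ] E d) (a b : E d) :
    h '' segment ℝ a b = segment ℝ (h a) (h b) := by
  have := image_segment ℝ (h.toLinearEquiv.toLinearMap.toAffineMap) a b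
  simpa using this

theorem vx_img {d : ℕ} {P : Set (E d)} (h : E d ≃ₗᵢ[ℝ] E d) (hP : h '' P = P) {v : E d}
    (hv : Vx P v) : Vx P (h v) := by
  have := face_image h hP hv
  rw [image_singleton] at this
  exact this

theorem n5 (hF : S_FACES) (hVF : S_VF) (hSH : S_SH) : S_N5 := by
  classical
  intro d P H v n w n' ι ι' j hP hH hDv hDw hwv hPT hPT1
  obtain ⟨hv, hsv, hn0, hO, hst⟩ := hDv
  obtain ⟨hw, hsw, hn0', hO', hst'⟩ := hDw
  obtain ⟨-, -, -, -, -, -, f7, f8, f9, f10⟩ := hF (d + 1) P hP.1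
  obtain ⟨-, -, -, hdet⟩ := hVF d P v n ι hP hv hsv hn0 hO
  obtain ⟨-, -, -, hdet'⟩ := hVF d P w n' ι' hP hw hsw hn0' hO'
  have heq : ∀ F G, IsFace P F → IsFace P G → v ∈ F → v ∈ G → fig v n ι F = fig v n ι G →
      F = G := fun F G h1 h2 h3 h4 h5 =>
    (hdet F G h1 h2 h3 h4 h5.subset).antisymm (hdet G F h2 h1 h4 h3 h5.symm.subset)
  have heq' : ∀ F G, IsFace P F → IsFace P G → w ∈ F → w ∈ G → fig w n' ι' F = fig w n' ι' G →
      F = G := fun F G h1 h2 h3 h4 h5 =>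
    (hdet' F G h1 h2 h3 h4 h5.subset).antisymm (hdet' G F h2 h1 h4 h3 h5.symm.subset)
  have dm0 : ∀ u : E (d + 1), dm ({u} : Set (E (d + 1))) = 0 := by
    intro u
    simp [dm]
  have hshv := hSH d P v n ι hP hv hsv hn0 hO
  have hshw := hSH d P w n' ι' hP hw hsw hn0' hO'
  have hvw : v ≠ w := hwv.1.symm
  have end_eq : ∀ a b, Adj P w a → Adj P w b → segment ℝ w a = segment ℝ w b → a = b := by
    intro a b ha hb hab
    have h1 : a ∈ segment ℝ w b := by
      rw [← hab]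
      exact right_mem_segment ℝ w a
    rcases f10 w b hb a (f9 w a ha).2.1 h1 with h | h
    · exact absurd h.symm ha.1
    · exact h
  -- the chain `w`, `[w, y]`
  have hch : ∀ y, Adj P w y → ∃ Φ : Ch P 2, Φ.face 0 = {w} ∧ Φ.face 1 = segment ℝ w y := by
    intro y hy
    refine ⟨⟨![{w}, segment ℝ w y], ?_, ?_, ?_⟩, rfl, rfl⟩
    · intro i
      fin_cases i
      · exact hw
      · exact hy.2
    · intro i
      fin_cases i
      · exact dm0 w
      · exact (f9 w y hy).2.2.2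
    · intro i i' hi
      fin_cases i <;> fin_cases i'
      · exact le_rfl
      · exact singleton_subset_iff.2 (left_mem_segment ℝ w y)
      · exact absurd hi (by decide)
      · exact le_rfl
  -- the neighbours of `w` are equivalent
  have htr : ∀ y y', Adj P w y → Adj P w y' → ∃ h ∈ H, h w = w ∧ h y = y' := by
    intro y y' hy hy'
    obtain ⟨Φ, a1, a2⟩ := hch y hy
    obtain ⟨Φ', b1, b2⟩ := hch y' hy'
    obtain ⟨Ψ, c⟩ := (hshw 1).2 Φ a1
    obtain ⟨Ψ', c'⟩ := (hshw 1).2 Φ' b1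
    obtain ⟨k, hk, hk'⟩ := hPT1 Ψ Ψ'
    obtain ⟨h, hh, hhw, hk2⟩ := core2 hst' hk
    refine ⟨h, hh, hhw, ?_⟩
    have e1 : fig w n' ι' (h '' segment ℝ w y) = fig w n' ι' (segment ℝ w y') := by
      have d1 := c 0
      have d2 := c' 0
      have d3 : Φ.face (Fin.succ 0) = segment ℝ w y := a2
      have d4 : Φ'.face (Fin.succ 0) = segment ℝ w y' := b2
      rw [d3] at d1
      rw [d4] at d2
      rw [hk2, d1, d2, hk' 0]
    have e2 : IsFace P (h '' segment ℝ w y) := face_image h (hH h hh) hy.2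
    have e3 := heq' _ _ e2 hy'.2 ⟨w, left_mem_segment ℝ w y, hhw⟩ (left_mem_segment ℝ w y') e1
    rw [seg_img, hhw] at e3
    refine end_eq _ _ ⟨?_, ?_⟩ hy' e3
    · intro h1
      exact hy.1 (h.injective (by rw [hhw, ← h1]))
    · rw [seg_img, hhw] at e2
      exact e2
  -- normal form of a chain through `w`
  have norm : ∀ Φ : Ch P (j + 1 + 1), Φ.face 0 = {w} → ∃ h ∈ H, h w = w ∧ ∃ Φ' : Ch P (j + 1 + 1),
      Φ'.face 0 = {v} ∧ Φ'.face 1 = segment ℝ w v ∧
        ∀ i : Fin (j + 1), h '' Φ.face i.succ = Φ'.face i.succ := by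
    intro Φ h0
    have hw1 : w ∈ Φ.face 1 := by
      apply Φ.mono (Fin.zero_le 1)
      rw [h0]
      exact mem_singleton w
    obtain ⟨y, hy, hFy⟩ := edge_of hF hP hw (Φ.isFace 1) (by rw [Φ.dim 1]; simp) hw1
    obtain ⟨h, hh, hhw, hhy⟩ := htr y v hy hwv
    have hf1 : h '' Φ.face 1 = segment ℝ w v := by rw [hFy, seg_img, hhw, hhy]
    have hv1 : ∀ i : Fin (j + 1 + 1), i ≠ 0 → v ∈ h '' Φ.face i := by
      intro i hi
      have h1 : (1 : Fin (j + 1 + 1)) ≤ i := Fin.one_le_of_ne_zero hi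
      have h2 : h '' Φ.face 1 ⊆ h '' Φ.face i := image_mono (Φ.mono h1)
      apply h2
      rw [hf1]
      exact right_mem_segment ℝ w v
    refine ⟨h, hh, hhw, ⟨fun i => if i = 0 then {v} else h '' Φ.face i, ?_, ?_, ?_⟩, ?_, ?_, ?_⟩
    · intro i
      by_cases hi : i = 0
      · rw [if_pos hi]
        exact hv
      · rw [if_neg hi]
        exact face_image h (hH h hh) (Φ.isFace i)
    · intro i
      by_cases hi : i = 0
      · rw [if_pos hi, dm0, hi]
        rfl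
      · rw [if_neg hi, dm_image]
        exact Φ.dim i
    · intro i i' hii
      show (if i = 0 then {v} else h '' Φ.face i) ⊆ (if i' = 0 then {v} else h '' Φ.face i')
      by_cases hi : i = 0
      · rw [if_pos hi]
        by_cases hi' : i' = 0
        · rw [if_pos hi']
        · rw [if_neg hi', singleton_subset_iff]
          exact hv1 i' hi'
      · have hi' : i' ≠ 0 := by
          rintro rfl
          exact hi (Fin.le_zero_iff.1 hii)
        rw [if_neg hi, if_neg hi']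
        exact image_mono (Φ.mono hii)
    · show (if (0 : Fin (j + 1 + 1)) = 0 then {v} else h '' Φ.face 0) = _
      rw [if_pos rfl]
    · show (if (1 : Fin (j + 1 + 1)) = 0 then {v} else h '' Φ.face 1) = _
      rw [if_neg (by simp), hf1]
    · intro i
      show _ = (if i.succ = 0 then {v} else h '' Φ.face i.succ)
      rw [if_neg (Fin.succ_ne_zero i)]
  intro Ψ Ψ'
  obtain ⟨Φ, a1, a2⟩ := (hshw (j + 1)).1 Ψ
  obtain ⟨Φ', b1, b2⟩ := (hshw (j + 1)).1 Ψ'
  obtain ⟨h1, hh1, hw1, Θ, t1, t2, t3⟩ := norm Φ a1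
  obtain ⟨h2, hh2, hw2, Θ', s1, s2, s3⟩ := norm Φ' b1
  obtain ⟨Λ, c1⟩ := (hshv (j + 1)).2 Θ t1
  obtain ⟨Λ', c2⟩ := (hshv (j + 1)).2 Θ' s1
  obtain ⟨k, hk, hk'⟩ := hPT Λ Λ'
  obtain ⟨h, hh, hhv, hk2⟩ := core2 hst hk
  have m1 : ∀ (Θ : Ch P (j + 1 + 1)), Θ.face 0 = {v} → ∀ i, v ∈ Θ.face i := fun Θ h0 i => by
    apply Θ.mono (Fin.zero_le i)
    rw [h0]
    rfl
  have key : ∀ i : Fin (j + 1), h '' Θ.face i.succ = Θ'.face i.succ := by
    intro i
    refine heq _ _ (face_image h (hH h hh) (Θ.isFace _)) (Θ'.isFace _) ?_ (m1 Θ' s1 _) ?_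
    · exact ⟨v, m1 Θ t1 _, hhv⟩
    · rw [hk2, c1, c2, hk']
  have hhw : h w = w := by
    have e1 := key 0
    have e2 : Θ.face (Fin.succ 0) = segment ℝ w v := t2
    have e3 : Θ'.face (Fin.succ 0) = segment ℝ w v := s2
    rw [e2, e3, seg_img, hhv] at e1
    have e4 : h w ∈ segment ℝ w v := by
      rw [← e1]
      exact left_mem_segment ℝ (h w) v
    rcases f10 w v hwv (h w) (vx_img h (hH h hh) hw) e4 with h' | h'
    · exact h'
    · exact absurd (h.injective (h'.trans hhv.symm)) hvw.symm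
  -- the element for `w`
  have hg : h2⁻¹ * h * h1 ∈ H := H.mul_mem (H.mul_mem (H.inv_mem hh2) hh) hh1
  have hgw : (h2⁻¹ * h * h1) w = w := by
    show h2.symm (h (h1 w)) = w
    rw [hw1, hhw]
    conv_lhs => rw [← hw2]
    exact h2.symm_apply_apply w
  have hgf : ∀ i : Fin (j + 1), (h2⁻¹ * h * h1) '' Φ.face i.succ = Φ'.face i.succ := by
    intro i
    have e1 : (h2⁻¹ * h * h1) '' Φ.face i.succ = h2.symm '' (h '' (h1 '' Φ.face i.succ)) := by
      rw [← image_comp, ← image_comp]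
      rfl
    rw [e1, t3, key, ← s3, ← image_comp]
    have e2 : (h2.symm : E (d + 1) → E (d + 1)) ∘ h2 = id := by
      funext x
      exact h2.symm_apply_apply x
    rw [e2, image_id]
  obtain ⟨k', hk'', hk3⟩ := core1 hn0' hO' hst' hg hgw
  refine ⟨k', hk'', fun i => ?_⟩
  rw [← a2, ← b2, ← hk3, hgf]

end Pool.Agent.T9h31.N1
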